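import Pool.Agent.Helper33.G.Snake

/-!
# Lanes: paths in the plain grid with ladder levels and tiles between the levels (helper82)

A lane is a path `γ 0, …, γ (a H - 1)` in the infinite grid, with `H` levels.  The level `h` starts
at the position `a h` and consists of `2 w` positions; position `a h + w - 1 - i` is adjacent to
position `a h + w + i`.  Between the levels `h` and `h + 1` the lane runs through all vertices of
the set `T h`.  (Problem MP_5165fa_co.)
-/

open Set BIC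

namespace H82G

/-- ladder level of width `w` at the position `a` -/
def Lev (γ : ℕ → ℕ × ℕ) (a w : ℕ) : Prop :=
  ∀ i < w, BICS.adj (γ (a + w - 1 - i)) (γ (a + w + i))

/-- a path of length `L` inside `V` -/
structure Pth (γ : ℕ → ℕ × ℕ) (L : ℕ) (V : Set (ℕ × ℕ)) : Prop where
  inj : ∀ z < L, ∀ z' < L, γ z = γ z' → z = z'
  adj : ∀ z, z + 1 < L → BICS.adj (γ z) (γ (z + 1))
  reg : ∀ z < L, γ z ∈ V

/-- a lane from `s` to `e` inside `V` with `H` levels of width `w` and the tiles `T` -/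
def Lane (V : Set (ℕ × ℕ)) (s e : ℕ × ℕ) (w H : ℕ) (T : ℕ → Set (ℕ × ℕ)) : Prop :=
  ∃ (γ : ℕ → ℕ × ℕ) (a : ℕ → ℕ), 0 < a H ∧ γ 0 = s ∧ γ (a H - 1) = e ∧ Pth γ (a H) V ∧
    (∀ h < H, Lev γ (a h) w) ∧ (∀ h < H, a h + 2 * w + 1 < a (h + 1)) ∧
    ∀ h < H, ∀ v ∈ T h, ∃ z, a h + 2 * w ≤ z ∧ z < a (h + 1) ∧ γ z = v

/-- concatenation of two sequences -/
def cat (γ₁ : ℕ → ℕ × ℕ) (L₁ : ℕ) (γ₂ : ℕ → ℕ × ℕ) : ℕ → ℕ × ℕ :=
  fun z => if z < L₁ then γ₁ z else γ₂ (z - L₁)

lemma cat_lt {γ₁ γ₂ : ℕ → ℕ × ℕ} {L₁ z : ℕ} (h : z < L₁) : cat γ₁ L₁ γ₂ z = γ₁ z := if_pos h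

lemma cat_add {γ₁ γ₂ : ℕ → ℕ × ℕ} {L₁ z : ℕ} : cat γ₁ L₁ γ₂ (L₁ + z) = γ₂ z := by
  unfold cat
  rw [if_neg (by omega), Nat.add_sub_cancel_left]

lemma Lane.mono {V V' : Set (ℕ × ℕ)} {s e : ℕ × ℕ} {w H : ℕ} {T T' : ℕ → Set (ℕ × ℕ)}
    (h : Lane V s e w H T) (hV : V ⊆ V') (hT : ∀ h < H, T' h ⊆ T h) : Lane V' s e w H T' := by
  obtain ⟨γ, a, h0, h1, h2, h3, h4, h5, h6⟩ := h
  exact ⟨γ, a, h0, h1, h2, ⟨h3.inj, h3.adj, fun z hz => hV (h3.reg z hz)⟩, h4, h5,
    fun i hi v hv => h6 i hi v (hT i hi hv)⟩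

/-- the tiles of a concatenation -/
def catT (T₁ : ℕ → Set (ℕ × ℕ)) (H₁ : ℕ) (T₂ : ℕ → Set (ℕ × ℕ)) : ℕ → Set (ℕ × ℕ) :=
  fun h => if h < H₁ then T₁ h else T₂ (h - H₁)

theorem Lane.cat {V₁ V₂ : Set (ℕ × ℕ)} {s₁ e₁ s₂ e₂ : ℕ × ℕ} {w H₁ H₂ : ℕ}
    {T₁ T₂ : ℕ → Set (ℕ × ℕ)} (h₁ : Lane V₁ s₁ e₁ w H₁ T₁) (h₂ : Lane V₂ s₂ e₂ w H₂ T₂)
    (hd : Disjoint V₁ V₂) (hj : BICS.adj e₁ s₂) :
    Lane (V₁ ∪ V₂) s₁ e₂ w (H₁ + H₂) (catT T₁ H₁ T₂) := by
  obtain ⟨γ₁, a₁, p0, p1, p2, p3, p4, p5, p6⟩ := h₁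
  obtain ⟨γ₂, a₂, q0, q1, q2, q3, q4, q5, q6⟩ := h₂
  set L₁ := a₁ H₁ with hL₁
  set γ := H82G.cat γ₁ L₁ γ₂ with hγ
  have c1 : ∀ {z}, z < L₁ → γ z = γ₁ z := fun h => cat_lt h
  have c2 : ∀ {z}, γ (L₁ + z) = γ₂ z := cat_add
  have c3 : ∀ {z}, L₁ ≤ z → γ z = γ₂ (z - L₁) := by
    intro z hz
    have := c2 (z := z - L₁)
    rwa [Nat.add_sub_cancel' hz] at this
  set a : ℕ → ℕ := fun h => if h < H₁ then a₁ h else L₁ + a₂ (h - H₁) with ha
  have a1 : ∀ {h}, h < H₁ → a h = a₁ h := fun h => if_pos h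
  have a2 : ∀ {h}, H₁ ≤ h → a h = L₁ + a₂ (h - H₁) := fun h => if_neg (by omega)
  have aH : a (H₁ + H₂) = L₁ + a₂ H₂ := by
    rw [a2 (by omega), Nat.add_sub_cancel_left]
  refine ⟨γ, a, ?_, ?_, ?_, ⟨?_, ?_, ?_⟩, ?_, ?_, ?_⟩
  · rw [aH]; omega
  · rw [c1 p0]; exact p1
  · rw [aH, show L₁ + a₂ H₂ - 1 = L₁ + (a₂ H₂ - 1) by omega, c2]; exact q2
  · rw [aH]
    intro z hz z' hz' h
    rcases Nat.lt_or_ge z L₁ with hl | hl <;> rcases Nat.lt_or_ge z' L₁ with hl' | hl'
    · rw [c1 hl, c1 hl'] at h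
      exact p3.inj z hl z' hl' h
    · rw [c1 hl, c3 hl'] at h
      exact absurd (h ▸ p3.reg z hl) (fun h' => Set.disjoint_left.1 hd h' (q3.reg _ (by omega)))
    · rw [c3 hl, c1 hl'] at h
      exact absurd (h ▸ p3.reg z' hl' : γ₂ (z - L₁) ∈ V₁)
        (fun h' => Set.disjoint_left.1 hd h' (q3.reg _ (by omega)))
    · rw [c3 hl, c3 hl'] at h
      have := q3.inj _ (by omega) _ (by omega) h
      omega
  · rw [aH]
    intro z hz
    rcases Nat.lt_or_ge (z + 1) L₁ with hl | hl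
    · rw [c1 (by omega), c1 hl]
      exact p3.adj z hl
    · rcases Nat.lt_or_ge z L₁ with hl' | hl'
      · have hz1 : z = L₁ - 1 := by omega
        rw [c1 hl', c3 hl, show z + 1 - L₁ = 0 by omega, q1, hz1, p2]
        exact hj
      · rw [c3 hl', c3 hl, show z + 1 - L₁ = (z - L₁) + 1 by omega]
        exact q3.adj _ (by omega)
  · rw [aH]
    intro z hz
    rcases Nat.lt_or_ge z L₁ with hl | hl
    · rw [c1 hl]; exact Or.inl (p3.reg z hl)
    · rw [c3 hl]; exact Or.inr (q3.reg _ (by omega))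
  · intro h hh i hi
    rcases Nat.lt_or_ge h H₁ with hl | hl
    · have g1 := p5 h hl
      have g2 : a₁ (h + 1) ≤ L₁ := by
        have : ∀ d, h + 1 + d ≤ H₁ → a₁ (h + 1) ≤ a₁ (h + 1 + d) := by
          intro d
          induction d with
          | zero => intro _; exact le_rfl
          | succ d ih =>
            intro hd'
            have g3 := p5 (h + 1 + d) (by omega)
            have g4 := ih (by omega)
            rw [show h + 1 + (d + 1) = h + 1 + d + 1 by omega]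
            omega
        have g5 := this (H₁ - (h + 1)) (by omega)
        rwa [show h + 1 + (H₁ - (h + 1)) = H₁ by omega] at g5
      rw [a1 hl, c1 (by omega), c1 (by omega)]
      exact p4 h hl i hi
    · rw [a2 hl, c3 (by omega), c3 (by omega),
        show L₁ + a₂ (h - H₁) + w - 1 - i - L₁ = a₂ (h - H₁) + w - 1 - i by omega,
        show L₁ + a₂ (h - H₁) + w + i - L₁ = a₂ (h - H₁) + w + i by omega]
      exact q4 _ (by omega) i hi
  · intro h hh
    rcases Nat.lt_or_ge (h + 1) H₁ with hl | hl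
    · rw [a1 (by omega), a1 hl]
      exact p5 h (by omega)
    · rcases Nat.lt_or_ge h H₁ with hl' | hl'
      · have g1 := p5 h hl'
        have g2 : h + 1 = H₁ := by omega
        rw [g2] at g1
        rw [a1 hl', a2 hl]
        omega
      · have g1 := q5 (h - H₁) (by omega)
        rw [a2 hl', a2 hl, show h + 1 - H₁ = h - H₁ + 1 by omega]
        omega
  · intro h hh v hv
    unfold catT at hv
    rcases Nat.lt_or_ge h H₁ with hl | hl
    · rw [if_pos hl] at hv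
      obtain ⟨z, z1, z2, z3⟩ := p6 h hl v hv
      have g2 : ∀ d, h + 1 + d ≤ H₁ → a₁ (h + 1) ≤ a₁ (h + 1 + d) := by
        intro d
        induction d with
        | zero => intro _; exact le_rfl
        | succ d ih =>
          intro hd'
          have g3 := p5 (h + 1 + d) (by omega)
          have g4 := ih (by omega)
          rw [show h + 1 + (d + 1) = h + 1 + d + 1 by omega]
          omega
      have g5 := g2 (H₁ - (h + 1)) (by omega)
      rw [show h + 1 + (H₁ - (h + 1)) = H₁ by omega] at g5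
      refine ⟨z, ?_, ?_, ?_⟩
      · rw [a1 hl]; exact z1
      · rcases Nat.lt_or_ge (h + 1) H₁ with hl' | hl'
        · rw [a1 hl']; exact z2
        · rw [a2 hl']; omega
      · rw [c1 (by omega)]; exact z3
    · rw [if_neg (by omega)] at hv
      obtain ⟨z, z1, z2, z3⟩ := q6 (h - H₁) (by omega) v hv
      refine ⟨L₁ + z, ?_, ?_, ?_⟩
      · rw [a2 hl]; omega
      · rw [a2 (by omega), show h + 1 - H₁ = h - H₁ + 1 by omega]; omega
      · rw [c2]; exact z3

/-- image of a lane under an adjacency preserving injection -/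
theorem Lane.map {V : Set (ℕ × ℕ)} {s e : ℕ × ℕ} {w H : ℕ} {T : ℕ → Set (ℕ × ℕ)}
    (h : Lane V s e w H T) (f : ℕ × ℕ → ℕ × ℕ) (hf : InjOn f V)
    (hadj : ∀ u ∈ V, ∀ v ∈ V, BICS.adj u v → BICS.adj (f u) (f v)) :
    Lane (f '' V) (f s) (f e) w H (fun h => f '' T h) := by
  obtain ⟨γ, a, h0, h1, h2, h3, h4, h5, h6⟩ := h
  have hmono : ∀ h, h < H → a (h + 1) ≤ a H := by
    intro h hh
    have : ∀ d, h + 1 + d ≤ H → a (h + 1) ≤ a (h + 1 + d) := by
      intro d
      induction d with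
      | zero => intro _; exact le_rfl
      | succ d ih =>
        intro hd'
        have g3 := h5 (h + 1 + d) (by omega)
        have g4 := ih (by omega)
        rw [show h + 1 + (d + 1) = h + 1 + d + 1 by omega]
        omega
    have g5 := this (H - (h + 1)) (by omega)
    rwa [show h + 1 + (H - (h + 1)) = H by omega] at g5
  refine ⟨fun z => f (γ z), a, h0, by simp only [h1], by simp only [h2], ⟨?_, ?_, ?_⟩, ?_, h5, ?_⟩
  · intro z hz z' hz' hh
    exact h3.inj z hz z' hz' (hf (h3.reg z hz) (h3.reg z' hz') hh)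
  · intro z hz
    exact hadj _ (h3.reg z (by omega)) _ (h3.reg (z + 1) hz) (h3.adj z hz)
  · intro z hz
    exact ⟨γ z, h3.reg z hz, rfl⟩
  · intro h hh i hi
    have g1 := h5 h hh
    have g2 := hmono h hh
    exact hadj _ (h3.reg _ (by omega)) _ (h3.reg _ (by omega)) (h4 h hh i hi)
  · rintro h hh v ⟨v', hv', rfl⟩
    obtain ⟨z, z1, z2, z3⟩ := h6 h hh v' hv'
    exact ⟨z, z1, z2, by simp only [z3]⟩

/-- a row traversed to the right -/
lemma lane_right (r c d w : ℕ) (T : ℕ → Set (ℕ × ℕ)) :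
    Lane {v | v.1 = r ∧ c ≤ v.2 ∧ v.2 ≤ c + d} (r, c) (r, c + d) w 0 T := by
  refine ⟨fun z => (r, c + z), fun _ => d + 1, Nat.succ_pos d, rfl, rfl, ⟨?_, ?_, ?_⟩, ?_, ?_, ?_⟩
  · intro z _ z' _ h
    have := congrArg Prod.snd h
    simp only at this
    omega
  · intro z _
    refine Or.inl ⟨rfl, ?_⟩
    simp only
    omega
  · intro z (hz : z < d + 1)
    refine ⟨rfl, ?_, ?_⟩ <;> simp only <;> omega
  · intro h hh; omega
  · intro h hh; omega
  · intro h hh; omega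

/-- a row traversed to the left -/
lemma lane_left (r c d w : ℕ) (T : ℕ → Set (ℕ × ℕ)) :
    Lane {v | v.1 = r ∧ c ≤ v.2 ∧ v.2 ≤ c + d} (r, c + d) (r, c) w 0 T := by
  refine ⟨fun z => (r, c + d - z), fun _ => d + 1, Nat.succ_pos d, rfl, ?_, ⟨?_, ?_, ?_⟩, ?_, ?_, ?_⟩
  · simp only [Nat.add_sub_cancel]
  · intro z (hz : z < d + 1) z' (hz' : z' < d + 1) h
    have := congrArg Prod.snd h
    simp only at this
    omega
  · intro z (hz : z + 1 < d + 1)
    refine Or.inl ⟨rfl, ?_⟩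
    simp only
    omega
  · intro z (hz : z < d + 1)
    refine ⟨rfl, ?_, ?_⟩ <;> simp only <;> omega
  · intro h hh; omega
  · intro h hh; omega
  · intro h hh; omega

/-- a column traversed downwards -/
lemma lane_down (r c d w : ℕ) (T : ℕ → Set (ℕ × ℕ)) :
    Lane {v | v.2 = c ∧ r ≤ v.1 ∧ v.1 ≤ r + d} (r, c) (r + d, c) w 0 T := by
  refine ⟨fun z => (r + z, c), fun _ => d + 1, Nat.succ_pos d, rfl, rfl, ⟨?_, ?_, ?_⟩, ?_, ?_, ?_⟩
  · intro z _ z' _ h
    have := congrArg Prod.fst h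
    simp only at this
    omega
  · intro z _
    refine Or.inr ⟨rfl, ?_⟩
    simp only
    omega
  · intro z (hz : z < d + 1)
    refine ⟨rfl, ?_, ?_⟩ <;> simp only <;> omega
  · intro h hh; omega
  · intro h hh; omega
  · intro h hh; omega

/-- the boustrophedon through `2 m + 4` rows of width `d ≥ w`, with a level at the first turn -/
lemma lane_snake {r l d w m : ℕ} (hw : w ≤ d) (hd : 2 ≤ d) (T : ℕ → Set (ℕ × ℕ))
    (hT : ∀ v ∈ T 0, r + 2 ≤ v.1 ∧ v.1 < r + (2 * m + 4) ∧ l ≤ v.2 ∧ v.2 < l + d) :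
    Lane {v | r ≤ v.1 ∧ v.1 < r + (2 * m + 4) ∧ l ≤ v.2 ∧ v.2 < l + d} (r, l)
      (r + (2 * m + 3), l) w 1 T := by
  have hd0 : 0 < d := by omega
  have e1 : (2 * m + 4) * d = (2 * m + 3) * d + d := by ring
  have e2 : (2 * m + 4) * d = 2 * d + (2 * m + 2) * d := by ring
  have e3 : d ≤ (2 * m + 2) * d := Nat.le_mul_of_pos_left d (by omega)
  have e4 : d ≤ (2 * m + 3) * d := Nat.le_mul_of_pos_left d (by omega)
  refine ⟨fun z => (r + (C1Q.sn d z).1, l + (C1Q.sn d z).2),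
    fun h => if h = 0 then d - w else (2 * m + 4) * d, ?_, ?_, ?_, ⟨?_, ?_, ?_⟩, ?_, ?_, ?_⟩
  · simp only [one_ne_zero, if_false]
    omega
  · have h1 : C1Q.sn d 0 = (0, 0) := by simp [C1Q.sn]
    simp only [h1, add_zero]
  · simp only [one_ne_zero, if_false]
    have h1 : C1Q.sn d ((2 * m + 4) * d - 1) = (2 * m + 3, 0) := by
      have h2 : C1Q.pos d (2 * m + 3, 0) = (2 * m + 4) * d - 1 := by
        unfold C1Q.pos
        simp only
        rw [if_neg (by omega)]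
        omega
      rw [← h2]
      exact C1Q.sn_pos hd0
    simp only [h1, add_zero]
  · intro z _ z' _ h
    have h1 := congrArg Prod.fst h
    have h2 := congrArg Prod.snd h
    simp only at h1 h2
    have h3 : C1Q.sn d z = C1Q.sn d z' := Prod.ext (by omega) (by omega)
    rw [← C1Q.pos_sn (z := z) hd0, h3, C1Q.pos_sn hd0]
  · intro z _
    have h1 := C1Q.sn_adj (z := z) hd0
    unfold BICS.adj at h1 ⊢
    simp only
    omega
  · intro z hz
    simp only [one_ne_zero, if_false] at hz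
    have h1 := C1Q.sn_fst_lt hz
    have h2 := C1Q.sn_snd_lt (z := z) hd0
    simp only [mem_ofPred_eq]
    omega
  · intro h hh i hi
    have h0 : h = 0 := by omega
    subst h0
    simp only [if_true]
    have h1 := C1Q.sn_rung (q := d) (s := 0) (j := i) (by omega)
    rw [show 0 * d + d - 1 - i = d - w + w - 1 - i by omega,
      show 0 * d + d + i = d - w + w + i by omega] at h1
    unfold BICS.adj at h1 ⊢
    simp only
    omega
  · intro h hh
    have h0 : h = 0 := by omega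
    subst h0
    simp only [zero_add, one_ne_zero, if_false, if_true]
    omega
  · intro h hh v hv
    have h0 : h = 0 := by omega
    subst h0
    obtain ⟨v1, v2, v3, v4⟩ := hT v hv
    simp only [zero_add, one_ne_zero, if_false, if_true]
    refine ⟨C1Q.pos d (v.1 - r, v.2 - l), ?_, ?_, ?_⟩
    · have h1 := (C1Q.pos_mem_Ico (q := d) (s := 2) (t := 2 * m + 4) (p := (v.1 - r, v.2 - l))
        (by simp only; omega) (by simp only; omega) (by simp only; omega)).1
      omega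
    · exact (C1Q.pos_mem_Ico (q := d) (s := 2) (t := 2 * m + 4) (p := (v.1 - r, v.2 - l))
        (by simp only; omega) (by simp only; omega) (by simp only; omega)).2
    · rw [C1Q.sn_pos (by simp only; omega)]
      simp only
      exact Prod.ext (by simp only; omega) (by simp only; omega)

end H82G
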