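import Mathlib

/-!
A slowly varying function (an owner walk) with prescribed values at the multiples of `K`.
-/

set_option autoImplicit false

namespace H82G

/-- A function with values `≤ 2 k`, changing by at most one at each step, which has the value
`v i` at `i K` and the value `v (i + 1)` already at `i K + 2 k`. -/
lemma exists_walk (k K : ℕ) (hK : 2 * k + 1 ≤ K) (v : ℕ → ℕ) (hv : ∀ i, v i ≤ 2 * k) :
    ∃ o : ℕ → ℕ, (∀ b, o b ≤ 2 * k) ∧ (∀ b, o (b + 1) ≤ o b + 1 ∧ o b ≤ o (b + 1) + 1) ∧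
      (∀ i, o (i * K) = v i) ∧ ∀ i, o (i * K + 2 * k) = v (i + 1) := by
  have hK0 : 0 < K := by omega
  set f : ℕ → ℕ → ℕ := fun i t =>
    if v i ≤ v (i + 1) then min (v i + t) (v (i + 1)) else max (v i - t) (v (i + 1)) with hf
  have hf0 : ∀ i, f i 0 = v i := by
    intro i
    have h1 := hv i
    simp only [hf]
    split_ifs with h <;> omega
  have hfl : ∀ i t, 2 * k ≤ t → f i t = v (i + 1) := by
    intro i t ht
    have h1 := hv i
    have h2 := hv (i + 1)
    simp only [hf]
    split_ifs with h <;> omega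
  have hfb : ∀ i t, f i t ≤ 2 * k := by
    intro i t
    have h1 := hv i
    have h2 := hv (i + 1)
    simp only [hf]
    split_ifs with h <;> omega
  have hfs : ∀ i t, f i (t + 1) ≤ f i t + 1 ∧ f i t ≤ f i (t + 1) + 1 := by
    intro i t
    simp only [hf]
    split_ifs with h <;> omega
  have hdm : ∀ i t, t < K → (i * K + t) / K = i ∧ (i * K + t) % K = t := by
    intro i t ht
    constructor
    · rw [Nat.add_comm, Nat.add_mul_div_right _ _ hK0, Nat.div_eq_of_lt ht, Nat.zero_add]
    · rw [Nat.add_comm, Nat.add_mul_mod_self_right, Nat.mod_eq_of_lt ht]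
  refine ⟨fun b => f (b / K) (b % K), fun b => hfb _ _, fun b => ?_, fun i => ?_, fun i => ?_⟩
  · obtain ⟨i, t, ht, rfl⟩ : ∃ i t, t < K ∧ b = i * K + t :=
      ⟨b / K, b % K, Nat.mod_lt _ hK0, (Nat.div_add_mod' b K).symm⟩
    obtain ⟨h1, h2⟩ := hdm i t ht
    simp only [h1, h2]
    by_cases htK : t + 1 < K
    · obtain ⟨h3, h4⟩ := hdm i (t + 1) htK
      rw [← Nat.add_assoc] at h3 h4
      rw [h3, h4]
      exact hfs i t
    · have ht1 : t + 1 = K := by omega
      have hb : i * K + t + 1 = (i + 1) * K + 0 := by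
        rw [Nat.add_assoc, ht1]; ring
      obtain ⟨h3, h4⟩ := hdm (i + 1) 0 hK0
      rw [hb, h3, h4, hf0, hfl i t (by omega)]
      omega
  · obtain ⟨h1, h2⟩ := hdm i 0 hK0
    rw [Nat.add_zero] at h1 h2
    simp only [h1, h2, hf0]
  · obtain ⟨h1, h2⟩ := hdm i (2 * k) (by omega)
    simp only [h1, h2]
    exact hfl i _ le_rfl

end H82G
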